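import Pool.Agent.Helper6.NX.GoalsB2

/-! Project NX (MP_75608d_al), packet COREC. -/

namespace Pool.Agent.Helper57.NX

open Filter Topology Equiv
open Pool.Agent.Helper6.NX

/-- the logarithm of a binomial coefficient -/
theorem log_choose_le {n k : ℕ} (hk1 : 1 ≤ k) (hkn : k ≤ n) {K : ℝ} (hK : 0 < K) :
    Real.log (n.choose k) ≤ k * Real.log (n / K) + K := by
  have hk : (0 : ℝ) < k := by exact_mod_cast hk1
  have hn : (0 : ℝ) < n := by exact_mod_cast (lt_of_lt_of_le hk1 hkn)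
  have h1 : ((n.choose k : ℕ) : ℝ) ≤ (n : ℝ) ^ k / (k.factorial : ℝ) := Nat.choose_le_pow_div k n
  have h2 : (k : ℝ) ^ k / (k.factorial : ℝ) ≤ Real.exp k :=
    Real.pow_div_factorial_le_exp (k : ℝ) hk.le k
  have hf : (0 : ℝ) < (k.factorial : ℝ) := by exact_mod_cast k.factorial_pos
  have h3 : ((n.choose k : ℕ) : ℝ) ≤ (n / k : ℝ) ^ k * Real.exp k := by
    calc ((n.choose k : ℕ) : ℝ) ≤ (n : ℝ) ^ k / (k.factorial : ℝ) := h1
      _ = (n / k : ℝ) ^ k * ((k : ℝ) ^ k / (k.factorial : ℝ)) := by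
          rw [div_pow]; field_simp
      _ ≤ (n / k : ℝ) ^ k * Real.exp k := by gcongr
  have hpos : (0 : ℝ) < ((n.choose k : ℕ) : ℝ) := by
    exact_mod_cast Nat.choose_pos hkn
  have h4 := Real.log_le_log hpos h3
  rw [Real.log_mul (by positivity) (by positivity), Real.log_exp, Real.log_pow] at h4
  have h5 : Real.log (n / k) = Real.log (n / K) + Real.log (K / k) := by
    rw [← Real.log_mul (by positivity) (by positivity)]
    congr 1
    field_simp
  have h6 : Real.log (K / k) ≤ K / k - 1 := by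
    have := Real.add_one_le_exp (Real.log (K / k))
    rw [Real.exp_log (by positivity)] at this
    linarith
  have h7 : (k : ℝ) * Real.log (K / k) ≤ K - k := by
    have := mul_le_mul_of_nonneg_left h6 hk.le
    have h8 : (k : ℝ) * (K / k - 1) = K - k := by field_simp
    linarith
  rw [h5] at h4
  nlinarith

theorem thmCOREC (hz : S_Z) : S_COREC := by
  intro δ τ c₀ hδ hδ' hτ hτ' hc hc'
  have hev1 : ∀ᶠ n : ℕ in atTop, (100 : ℝ) ≤ Real.log n :=
    (Real.tendsto_log_atTop.comp tendsto_natCast_atTop_atTop).eventually_ge_atTop 100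
  have hev2 : ∀ᶠ n : ℕ in atTop, (4 : ℝ) ≤ (n : ℝ) ^ (1 - δ) :=
    ((tendsto_rpow_atTop (by linarith : 0 < 1 - δ)).comp
      tendsto_natCast_atTop_atTop).eventually_ge_atTop 4
  have hev3 : ∀ᶠ n : ℕ in atTop, (100 : ℝ) ≤ (n : ℝ) ^ (2 * δ) :=
    ((tendsto_rpow_atTop (by linarith : 0 < 2 * δ)).comp
      tendsto_natCast_atTop_atTop).eventually_ge_atTop 100
  filter_upwards [hev1, hev2, hev3, eventually_ge_atTop 2] with n hL hN h2δ hn2 ν ω k hyp hk hkn hAA
  have hn : (0 : ℝ) < n := by positivity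
  have hn1 : (1 : ℝ) ≤ n := by exact_mod_cast (by omega : 1 ≤ n)
  have hL0 : (0 : ℝ) < Real.log n := by linarith
  have hωl : IsLaw ω := ⟨hyp.hω.nonneg, hyp.hω.sum⟩
  have hZ := hz n k ν ω ((n : ℝ) ^ (-(3 * δ))) (by omega) hkn.le hyp.hν hωl hyp.sym hyp.near
  -- K
  set K : ℝ := H ν / Real.log n with hKdef
  have hHK : H ν = K * Real.log n := by rw [hKdef]; field_simp
  have hKlo : (n : ℝ) ^ (1 - δ) ≤ K := by
    rw [hKdef, le_div_iff₀ hL0]; exact hyp.lo
  have hK0 : 0 < K := by linarith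
  have hKhi : K ≤ c₀ * n := by
    rw [hKdef, div_le_iff₀ hL0]; exact hyp.hi
  have hKn : K ≤ n := by nlinarith
  have hlogK0 : 0 ≤ Real.log (n / K) := Real.log_nonneg (by rw [le_div_iff₀ hK0]; linarith)
  have hlogK : Real.log (n / K) ≤ δ * Real.log n := by
    have h1 : (n : ℝ) / K ≤ (n : ℝ) ^ δ := by
      rw [div_le_iff₀ hK0]
      calc (n : ℝ) = (n : ℝ) ^ δ * (n : ℝ) ^ (1 - δ) := by
            rw [← Real.rpow_add hn]; simp
        _ ≤ (n : ℝ) ^ δ * K := by gcongr
    calc Real.log (n / K) ≤ Real.log ((n : ℝ) ^ δ) := Real.log_le_log (by positivity) h1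
      _ = δ * Real.log n := Real.log_rpow hn δ
  have hch : Real.log (n.choose k) ≤ K * (1 + 0.024 * Real.log n) := by
    rcases Nat.eq_zero_or_pos k with h0 | h0
    · subst h0
      simp only [Nat.choose_zero_right, Nat.cast_one, Real.log_one]
      positivity
    · have h1 := log_choose_le (n := n) (k := k) h0 hkn.le hK0
      have h2 : (k : ℝ) * Real.log (n / K) ≤ (1200 * K) * (δ * Real.log n) := by
        have hk0 : (0 : ℝ) ≤ k := by positivity
        exact mul_le_mul hk hlogK hlogK0 (by positivity)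
      have h3 : δ * Real.log n ≤ 1 / 50000 * Real.log n := by gcongr
      nlinarith
  have hfac : (n : ℝ) ^ (-(3 * δ)) * Real.log n.factorial ≤ 1 / 100 * H ν := by
    have h1 : Real.log n.factorial ≤ n * Real.log n := by
      have h2 : ((n.factorial : ℕ) : ℝ) ≤ (n : ℝ) ^ n := by exact_mod_cast n.factorial_le_pow
      calc Real.log n.factorial ≤ Real.log ((n : ℝ) ^ n) :=
            Real.log_le_log (by exact_mod_cast n.factorial_pos) h2
        _ = n * Real.log n := Real.log_pow n n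
    have h3 : (n : ℝ) ^ (-(3 * δ)) * n ≤ 1 / 100 * K := by
      have h4 : (n : ℝ) ^ (-(3 * δ)) * n = (n : ℝ) ^ (1 - δ) / (n : ℝ) ^ (2 * δ) := by
        rw [← Real.rpow_sub hn]
        nth_rewrite 2 [← Real.rpow_one (n : ℝ)]
        rw [← Real.rpow_add hn]
        congr 1; ring
      rw [h4, div_le_iff₀ (by positivity)]
      nlinarith
    calc (n : ℝ) ^ (-(3 * δ)) * Real.log n.factorial
        ≤ (n : ℝ) ^ (-(3 * δ)) * (n * Real.log n) := by gcongr
      _ = ((n : ℝ) ^ (-(3 * δ)) * n) * Real.log n := by ring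
      _ ≤ (1 / 100 * K) * Real.log n := by gcongr
      _ = 1 / 100 * H ν := by rw [hHK]; ring
  have hsq : 4 * √((n : ℝ) ^ (-(3 * δ))) ≤ 1 / 100 * H ν := by
    have h1 : (n : ℝ) ^ (-(3 * δ)) ≤ 1 := by
      apply Real.rpow_le_one_of_one_le_of_nonpos hn1; linarith
    have h2 : √((n : ℝ) ^ (-(3 * δ))) ≤ 1 := by
      rw [Real.sqrt_le_one]; exact h1
    rw [hHK]
    nlinarith
  have htri := hyp.tri
  have hH0 : 0 < H ν := by rw [hHK]; positivity
  have h2τ : 2 * (H (conv (conv ν ν) ν) - H ν) ≤ 1 / 500 * H ν := by nlinarith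
  have hKs : K ≤ 1 / 100 * H ν := by rw [hHK]; nlinarith
  have hfin : K * (1 + 0.024 * Real.log n) = K + 0.024 * H ν := by rw [hHK]; ring
  nlinarith

end Pool.Agent.Helper57.NX

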