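import Pool.Agent.Helper6.NX.GoalsB2

/-! Project NX (MP_75608d_al), packet REC. -/

namespace Pool.Agent.Helper57.NX

open Filter Topology Equiv
open Pool.Agent.Helper6.NX

theorem sum_four {A B : Type} [Fintype A] [Fintype B] (c : ℝ) (F : A → B → A → B → ℝ) :
    ∑ z : A × B, ∑ z' : A × B, c * F z.1 z.2 z'.1 z'.2 =
      c * ∑ a : A, ∑ a' : A, ∑ b : B, ∑ b' : B, F a b a' b' := by
  rw [Fintype.sum_prod_type, Finset.mul_sum]
  refine Finset.sum_congr rfl fun a _ => ?_
  rw [Finset.mul_sum]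
  simp only [Fintype.sum_prod_type]
  rw [Finset.sum_comm]
  refine Finset.sum_congr rfl fun a' _ => ?_
  rw [Finset.mul_sum]
  refine Finset.sum_congr rfl fun b _ => ?_
  rw [Finset.mul_sum]

theorem thmREC (hvp : S_VP) (hvc : S_VC) (hs1 : S_S1) (hs2a : S_S2A) (hs2b : S_S2B) : S_REC := by
  intro n k ν ω θ ϵ hn hν hω hθ hnear hmix hϵ hϵL
  have hn0 : (0 : ℝ) < n := by positivity
  have hn3 : (3 : ℝ) ≤ n := by exact_mod_cast hn
  have hL1 : 1 ≤ Real.log n := by
    rw [Real.le_log_iff_exp_le hn0]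
    have := Real.exp_one_lt_d9
    linarith
  have hL0 : 0 < Real.log n := by linarith
  obtain ⟨-, -, -, -, hv5, ⟨-, hv6⟩, -⟩ := hvp n ν (by omega) hν
  obtain ⟨hc1, -, -⟩ := hvc n ν (by omega) hν
  have hlog33 : 0 ≤ Real.log 33 := Real.log_nonneg (by norm_num)
  rcases lt_or_ge k n with hk | hk
  swap
  · have h1 : VV ν (2 * k) = 0 := (hv6 (2 * k) (by omega)).2
    have h2 : VV ν k = 0 := (hv6 k hk).2
    have h3 := hc1 k
    rw [h2] at h3
    rw [h1, h2]
    have h4 : 0 ≤ (n : ℝ) ^ (-ϵ) := by positivity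
    have h5 : 0 ≤ (n : ℝ) ^ (-(1 / 2 : ℝ)) := by positivity
    have h6 := Real.sqrt_nonneg θ
    have h7 : 0 ≤ 4 * ϵ * (n : ℝ) ^ (-ϵ) := by positivity
    nlinarith
  -- main case
  have hS1 := hs1 n k hk ν ω θ hn hν hω hnear hmix
  obtain ⟨ha1, ha2, ha3, -⟩ := hs2a n k hk ν hn hν
  have ha3' := ha3 ϵ hϵ hϵL
  have hfac : (0 : ℝ) < (n.factorial : ℝ) := by exact_mod_cast n.factorial_pos
  -- the law and the information content
  let P : Perm (Fin n) × Perm (Fin n) → ℝ := fun z => (n.factorial : ℝ)⁻¹ * ν z.2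
  let ι : Perm (Fin n) × Perm (Fin n) → ℝ := fun z =>
    if 0 < ν z.2 then -Real.log (kap ν k hk z.1 z.2) / Real.log n else 0
  have hcard : Fintype.card (Perm (Fin n)) = n.factorial := by
    rw [Fintype.card_perm, Fintype.card_fin]
  have hP : IsLaw P := by
    refine ⟨fun z => mul_nonneg (by positivity) (hν.1 _), ?_⟩
    rw [Fintype.sum_prod_type]
    simp only [P, ← Finset.mul_sum, hν.2, mul_one, Finset.sum_const, Finset.card_univ, hcard,
      nsmul_eq_mul]
    field_simp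
  have hι0 : ∀ z, 0 ≤ ι z := by
    intro z
    simp only [ι]
    split_ifs with h
    · obtain ⟨h1, h2⟩ := ha1 z.1 z.2 h
      have := Real.log_nonpos h1.le h2
      apply div_nonneg _ hL0.le
      linarith
    · exact le_refl 0
  have hPι : ∀ z, P z * ι z =
      (n.factorial : ℝ)⁻¹ * (ν z.2 * (-Real.log (kap ν k hk z.1 z.2))) / Real.log n := by
    intro z
    simp only [P, ι]
    split_ifs with h
    · ring
    · have : ν z.2 = 0 := le_antisymm (not_lt.mp h) (hν.1 _)
      rw [this]; ring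
  have hsum : ∑ z, P z * ι z = VV ν k := by
    simp only [hPι]
    rw [Fintype.sum_prod_type]
    simp only [← Finset.sum_div, ← Finset.mul_sum]
    rw [ha2]
    field_simp
  have hPm : ∀ z, P z * max (ι z - 1) 0 =
      (n.factorial : ℝ)⁻¹ * (ν z.2 * max (-Real.log (kap ν k hk z.1 z.2) / Real.log n - 1) 0) := by
    intro z
    simp only [P, ι]
    split_ifs with h
    · ring
    · have : ν z.2 = 0 := le_antisymm (not_lt.mp h) (hν.1 _)
      rw [this]; ring
  have hmax : ∑ z, P z * max (ι z - 1) 0 ≤ ϵ * VV ν k + ϵ * (n : ℝ) ^ (-ϵ) := by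
    simp only [hPm]
    rw [Fintype.sum_prod_type]
    simp only [← Finset.mul_sum]
    exact ha3'
  have hB := hs2b (Perm (Fin n) × Perm (Fin n)) P ι (Real.log n) (VV ν k)
    (ϵ * VV ν k + ϵ * (n : ℝ) ^ (-ϵ)) hP hι0 hL1 hsum hmax
  have hexp : Real.exp (-(Real.log n / 2)) = (n : ℝ) ^ (-(1 / 2 : ℝ)) := by
    rw [Real.rpow_def_of_pos hn0]; congr 1; ring
  have hterm : ∀ z z', P z * P z' *
      Real.log (1 + 32 * Real.exp (Real.log n * (ι z + ι z' - 1))) =
      (n.factorial : ℝ)⁻¹ ^ 2 * (ν z.2 * ν z'.2 *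
        Real.log (1 + 32 / (n * (kap ν k hk z.1 z.2 * kap ν k hk z'.1 z'.2)))) := by
    intro z z'
    by_cases h : 0 < ν z.2
    · by_cases h' : 0 < ν z'.2
      · have k1 := (ha1 z.1 z.2 h).1
        have k2 := (ha1 z'.1 z'.2 h').1
        have e1 : Real.exp (Real.log n * (ι z + ι z' - 1)) =
            1 / (n * (kap ν k hk z.1 z.2 * kap ν k hk z'.1 z'.2)) := by
          have : Real.log n * (ι z + ι z' - 1) =
              -(Real.log (kap ν k hk z.1 z.2) + Real.log (kap ν k hk z'.1 z'.2) +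
                Real.log n) := by
            simp only [ι, h, h', if_true]
            field_simp
            ring
          rw [this, Real.exp_neg, Real.exp_add, Real.exp_add, Real.exp_log k1, Real.exp_log k2,
            Real.exp_log hn0, one_div]
          congr 1
          ring
        rw [e1]
        simp only [P]
        rw [mul_one_div]
        ring
      · have : ν z'.2 = 0 := le_antisymm (not_lt.mp h') (hν.1 _)
        simp only [P, this]; ring
    · have : ν z.2 = 0 := le_antisymm (not_lt.mp h) (hν.1 _)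
      simp only [P, this]; ring
  have hX : ∑ z, ∑ z', P z * P z' *
      Real.log (1 + 32 * Real.exp (Real.log n * (ι z + ι z' - 1))) =
      (n.factorial : ℝ)⁻¹ ^ 2 * ∑ σ₁ : Perm (Fin n), ∑ σ₂ : Perm (Fin n),
      ∑ f₁, ∑ f₂, ν f₁ * ν f₂ *
        Real.log (1 + 32 / (n * (kap ν k hk σ₁ f₁ * kap ν k hk σ₂ f₂))) := by
    have e1 : ∑ z, ∑ z', P z * P z' *
        Real.log (1 + 32 * Real.exp (Real.log n * (ι z + ι z' - 1))) =
        ∑ z : Perm (Fin n) × Perm (Fin n), ∑ z' : Perm (Fin n) × Perm (Fin n),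
          (n.factorial : ℝ)⁻¹ ^ 2 * (ν z.2 * ν z'.2 *
        Real.log (1 + 32 / (n * (kap ν k hk z.1 z.2 * kap ν k hk z'.1 z'.2)))) :=
      Finset.sum_congr rfl fun z _ => Finset.sum_congr rfl fun z' _ => hterm z z'
    rw [e1]
    exact sum_four ((n.factorial : ℝ)⁻¹ ^ 2) (fun a b a' b' => ν b * ν b' *
        Real.log (1 + 32 / (n * (kap ν k hk a b * kap ν k hk a' b'))))
  rw [hX] at hB
  rw [hexp] at hB
  calc VV ν (2 * k) ≤ _ := hS1
    _ ≤ 2 * (VV (conv ν ν) k - VV ν k) + 2 * (θ + 2 * √θ) +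
        2 * (VV ν k ^ 2 + 2 * (ϵ * VV ν k + ϵ * (n : ℝ) ^ (-ϵ)) +
          8 * VV ν k * Real.log 33 / Real.log n + 32 * (n : ℝ) ^ (-(1 / 2 : ℝ))) := by
        gcongr
    _ = _ := by ring

end Pool.Agent.Helper57.NX
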