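import Pool.Agent.Helper6.NX.GoalsB2

/-! Project NX (MP_75608d_al), packet CMP. -/

namespace Pool.Agent.Helper57.NX

open Filter Topology Equiv
open Pool.Agent.Helper6.NX Pool.Agent.Helper15.An

theorem TC.drop {T : Finset (List Bool)} (hT : TC T) : ∀ (i : ℕ) (s : List Bool), s ∈ T →
    s.drop i ∈ T := by
  intro i
  induction i with
  | zero => intro s hs; simpa using hs
  | succ i ih =>
    intro s hs
    cases s with
    | nil => simpa using hT.1
    | cons b s => simpa using ih s (hT.2 b s hs)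

theorem TC.length_lt {T : Finset (List Bool)} (hT : TC T) {s : List Bool} (hs : s ∈ T) :
    s.length < T.card := by
  have h1 : (Finset.range (s.length + 1)).image (fun i => s.drop i) ⊆ T := by
    intro t ht
    simp only [Finset.mem_image] at ht
    obtain ⟨i, -, rfl⟩ := ht
    exact TC.drop hT i s hs
  have h2 := Finset.card_le_card h1
  rw [Finset.card_image_of_injOn, Finset.card_range] at h2
  · omega
  · intro i hi j hj hij
    have := congrArg List.length hij
    simp only [List.length_drop] at this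
    simp only [Finset.coe_range, Set.mem_Iio] at hi hj
    omega

theorem thmCMP (hcnt : S_CNT) (hcmp1 : S_CMP1) (hcmp2 : S_CMP2) : S_CMP := by
  classical
  intro n J π ω ρ hω hρ hJn hn hρ' hfix hmix
  set r : ℝ := ρ + J / √(n : ℝ) with hr
  have hr0 : 0 ≤ r := by positivity
  have hn0 : (0 : ℝ) < n := by exact_mod_cast hn
  let 𝒯 : Finset (Finset (List Bool)) :=
    ((List.finite_length_le Bool J).toFinset.powerset).filter
      (fun T => TC T ∧ 1 ≤ T.card ∧ T.card ≤ J)
  have hmem : ∀ T : Finset (List Bool), TC T → 1 ≤ T.card → T.card ≤ J → T ∈ 𝒯 := by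
    intro T hT h1 h2
    simp only [𝒯, Finset.mem_filter, Finset.mem_powerset]
    refine ⟨fun s hs => ?_, hT, h1, h2⟩
    simp only [Set.Finite.mem_toFinset, Set.mem_ofPred_eq]
    have := TC.length_lt hT hs
    omega
  have hω0 : ∀ w : Fin 3 → Perm (Fin n), 0 ≤ ∏ i, ω (w i) :=
    fun w => Finset.prod_nonneg fun i _ => hω.1 _
  have hcard : ∀ y : Fin 3 → Perm (Fin n),
      ((Finset.univ.filter fun p : Fin n => (orb y p).card ≤ J).card : ℝ) ≤
        ∑ T ∈ 𝒯, ∑ p : Fin n, (if Clo y p T then (1 : ℝ) else 0) := by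
    intro y
    rw [Finset.sum_comm, Finset.card_eq_sum_ones, Nat.cast_sum, Finset.sum_filter]
    refine Finset.sum_le_sum fun p _ => ?_
    split_ifs with h
    · obtain ⟨T, hT, h1, h2, h3⟩ := hcmp2 n J y p h
      have h4 : (if Clo y p T then (1 : ℝ) else 0) = 1 := if_pos h3
      calc ((1 : ℕ) : ℝ) = (if Clo y p T then (1 : ℝ) else 0) := by rw [h4]; simp
        _ ≤ _ := Finset.single_le_sum (f := fun T => if Clo y p T then (1 : ℝ) else 0)
            (fun T _ => by positivity) (hmem T hT h1 h2)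
    · exact Finset.sum_nonneg fun T _ => by positivity
  have hone : ∀ T ∈ 𝒯, ∑ p : Fin n, ∑ w : Fin 3 → Perm (Fin n), (∏ i, ω (w i)) *
      (if Clo (cj3 π w) p T then (1 : ℝ) else 0) ≤ n * (64 * r ^ (T.card + 1)) := by
    intro T hT
    simp only [𝒯, Finset.mem_filter] at hT
    obtain ⟨-, hT, h1, h2⟩ := hT
    have h3 := hcmp1 n J π ω ρ T hω hρ hJn hn h2 hT hfix hmix
    refine le_trans (le_of_eq ?_) (h3.trans ?_)
    · refine Finset.sum_congr rfl fun p _ => Finset.sum_congr rfl fun w _ => ?_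
      congr
    · have h4 : ρ + (T.card : ℝ) / √(n : ℝ) ≤ r := by
        rw [hr]
        gcongr
      gcongr
  have hgeo : ∑ x ∈ Finset.Icc 1 J, (4 : ℝ) ^ x * (n * (64 * r ^ (x + 1))) ≤
      n * (512 * r ^ 2) := by
    have h1 : ∀ J : ℕ, ∑ x ∈ Finset.Icc 1 J, (4 * r) ^ x ≤ 8 * r := by
      intro J
      have h2 : ∀ J : ℕ, ∑ x ∈ Finset.Icc 1 J, (4 * r) ^ x ≤ 8 * r * (1 - (4 * r) ^ J) := by
        intro J
        induction J with
        | zero => simp
        | succ J ih =>
          rw [Finset.sum_Icc_succ_top (by omega)]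
          have h3 : 0 ≤ (4 * r) ^ J := by positivity
          have h4 : (4 * r) ^ (J + 1) = (4 * r) ^ J * (4 * r) := pow_succ _ _
          rw [h4]
          have h5 : 4 * r ≤ 1 / 2 := by linarith
          have h6 : 0 ≤ r * ((4 * r) ^ J) := by positivity
          nlinarith [mul_nonneg h6 (by linarith : 0 ≤ 1 / 2 - 4 * r)]
      refine (h2 J).trans ?_
      have h3 : 0 ≤ (4 * r) ^ J := by positivity
      nlinarith [mul_nonneg hr0 h3]
    calc ∑ x ∈ Finset.Icc 1 J, (4 : ℝ) ^ x * (n * (64 * r ^ (x + 1)))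
        = n * (64 * r) * ∑ x ∈ Finset.Icc 1 J, (4 * r) ^ x := by
          rw [Finset.mul_sum]
          refine Finset.sum_congr rfl fun x _ => ?_
          rw [mul_pow, pow_succ]
          ring
      _ ≤ n * (64 * r) * (8 * r) := by
          gcongr
          exact h1 J
      _ = n * (512 * r ^ 2) := by ring
  calc ∑ w : Fin 3 → Perm (Fin n), (∏ i, ω (w i)) *
      ((Finset.univ.filter fun p : Fin n => (orb (cj3 π w) p).card ≤ J).card : ℝ)
      ≤ ∑ w : Fin 3 → Perm (Fin n), (∏ i, ω (w i)) *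
        ∑ T ∈ 𝒯, ∑ p : Fin n, (if Clo (cj3 π w) p T then (1 : ℝ) else 0) := by
        refine Finset.sum_le_sum fun w _ => ?_
        exact mul_le_mul_of_nonneg_left (hcard _) (hω0 w)
    _ = ∑ T ∈ 𝒯, ∑ p : Fin n, ∑ w : Fin 3 → Perm (Fin n), (∏ i, ω (w i)) *
          (if Clo (cj3 π w) p T then (1 : ℝ) else 0) := by
        simp only [Finset.mul_sum]
        rw [Finset.sum_comm]
        refine Finset.sum_congr rfl fun T _ => ?_
        rw [Finset.sum_comm]
    _ ≤ ∑ T ∈ 𝒯, n * (64 * r ^ (T.card + 1)) := Finset.sum_le_sum hone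
    _ = ∑ x ∈ Finset.Icc 1 J, ∑ T ∈ 𝒯 with T.card = x, n * (64 * r ^ (T.card + 1)) := by
        rw [Finset.sum_fiberwise_of_maps_to]
        intro T hT
        simp only [𝒯, Finset.mem_filter] at hT
        simp only [Finset.mem_Icc]
        exact hT.2.2
    _ ≤ ∑ x ∈ Finset.Icc 1 J, (4 : ℝ) ^ x * (n * (64 * r ^ (x + 1))) := by
        refine Finset.sum_le_sum fun x _ => ?_
        have h1 : ∑ T ∈ 𝒯 with T.card = x, n * (64 * r ^ (T.card + 1)) =
            ∑ T ∈ 𝒯 with T.card = x, n * (64 * r ^ (x + 1)) := by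
          refine Finset.sum_congr rfl fun T hT => ?_
          rw [(Finset.mem_filter.mp hT).2]
        rw [h1, Finset.sum_const, nsmul_eq_mul]
        have h2 : (𝒯.filter fun T => T.card = x).card ≤ 4 ^ x := by
          apply hcnt x
          intro T hT
          have h3 := (Finset.mem_filter.mp hT)
          simp only [𝒯, Finset.mem_filter] at h3
          exact ⟨h3.1.2.1, h3.2⟩
        have h3 : ((𝒯.filter fun T => T.card = x).card : ℝ) ≤ 4 ^ x := by exact_mod_cast h2
        gcongr
    _ ≤ n * (512 * r ^ 2) := hgeo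

end Pool.Agent.Helper57.NX
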